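import Pool.Agent.W182.PW.Lin

set_option autoImplicit false

/-!
# Almost prime triplets in all windows around a positive proportion of the integers

Let `h` be `2` or `4`. There are `r` and `c₁, c₂, K > 0` such that a positive proportion of all
integers `n` is regular: every interval `(a, b]` with `a ≤ n ≤ b` and `K log³ n ≤ b - a ≤ n` contains
between `c₁ (b - a) / log³ n` and `c₂ (b - a) / log³ n` primes `p` for which `p + h` and `p + 6` have
at most `r` prime factors each, all larger than `n ^ (1 / r)`.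
-/

namespace Pool.Agent.Results.MP_dddec0_nt.RegularWindows

open Finset Filter

/-- `N` has at most `r` prime factors (with multiplicity), all of them larger than `z`. -/
def AlmostPrime (r : ℕ) (z : ℝ) (N : ℕ) : Prop :=
  N.primeFactorsList.length ≤ r ∧ ∀ q : ℕ, q.Prime → q ∣ N → z < (q : ℝ)

/-- `p` is prime, `p + h` and `p + 6` have at most `r` prime factors each (with multiplicity), all of
them larger than `z`. -/
def AlmostTriplet (h r : ℕ) (z : ℝ) (p : ℕ) : Prop :=
  p.Prime ∧ AlmostPrime r z (p + h) ∧ AlmostPrime r z (p + 6)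

open Classical in
/-- `n` is regular. -/
def Regular (h r : ℕ) (c₁ c₂ K : ℝ) (n : ℕ) : Prop :=
  ∀ a b : ℕ, a ≤ n → n ≤ b → K * Real.log n ^ 3 ≤ (b : ℝ) - a → (b : ℝ) - a ≤ n →
    c₁ * ((b : ℝ) - a) / Real.log n ^ 3 ≤
      (((Finset.Ioc a b).filter (fun p => AlmostTriplet h r ((n : ℝ) ^ (1 / (r : ℝ))) p)).card : ℝ) ∧
    (((Finset.Ioc a b).filter (fun p => AlmostTriplet h r ((n : ℝ) ^ (1 / (r : ℝ))) p)).card : ℝ) ≤
      c₂ * ((b : ℝ) - a) / Real.log n ^ 3

open Pool.Agent.W182.PW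

lemma lin_one (b p : ℕ) : ((lin 1 (b : ℤ)).eval (p : ℤ)) = ((p + b : ℕ) : ℤ) := by
  rw [lin_eval]
  push_cast
  ring

lemma prop_eq (h : ℕ) :
    PrimeAlmost (fun i : Fin 2 => lin 1 (((if i = 0 then h else 6 : ℕ) : ℤ))) =
      AlmostTriplet h := by
  funext r z p
  apply propext
  unfold PrimeAlmost AlmostTriplet AlmostPrime
  rw [Fin.forall_fin_two]
  have e2 : (if (1 : Fin 2) = 0 then h else 6 : ℕ) = 6 := if_neg (by decide)
  simp only [↓reduceIte, e2, lin_one, Int.natAbs_natCast, Int.natCast_dvd_natCast]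

lemma reg_eq (h : ℕ) :
    RegularP (fun i : Fin 2 => lin 1 (((if i = 0 then h else 6 : ℕ) : ℤ))) (2 + 1) =
      Regular h := by
  funext r c₁ c₂ K n
  unfold RegularP Regular
  rw [prop_eq]

lemma adm (h : ℕ) (hh : h = 2 ∨ h = 4) (p : ℕ) (hp : p.Prime) :
    ∃ m : ℕ, ¬ p ∣ m ∧ ¬ p ∣ m + h ∧ ¬ p ∣ m + 6 := by
  have key : ∀ M N : ℕ, M ∣ N → ¬ p ∣ N → ¬ p ∣ M := fun M N h1 h2 h3 => h2 (h3.trans h1)
  have h2p := hp.two_le
  rcases hh with rfl | rfl
  · by_cases h2 : p = 2
    · subst h2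
      exact ⟨1, by norm_num, by norm_num, by norm_num⟩
    · have h3 : ¬ p ∣ 2 ^ 3 := by
        intro h
        exact h2 ((Nat.prime_dvd_prime_iff_eq hp Nat.prime_two).1 (hp.dvd_of_dvd_pow h))
      exact ⟨2, key 2 (2 ^ 3) (by norm_num) h3, key 4 (2 ^ 3) (by norm_num) h3,
        key 8 (2 ^ 3) (by norm_num) h3⟩
  · by_cases h2 : p = 2
    · subst h2
      exact ⟨1, by norm_num, by norm_num, by norm_num⟩
    · by_cases h3 : p = 3
      · subst h3
        exact ⟨1, by norm_num, by norm_num, by norm_num⟩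
      · have h4 : ¬ p ∣ 2 ^ 3 * 3 := by
          intro h
          rcases hp.dvd_mul.1 h with h | h
          · exact h2 ((Nat.prime_dvd_prime_iff_eq hp Nat.prime_two).1 (hp.dvd_of_dvd_pow h))
          · exact h3 ((Nat.prime_dvd_prime_iff_eq hp Nat.prime_three).1 h)
        exact ⟨2, key 2 (2 ^ 3 * 3) (by norm_num) h4, key 6 (2 ^ 3 * 3) (by norm_num) h4,
          key 8 (2 ^ 3 * 3) (by norm_num) h4⟩

open Classical in
/-- **Almost prime triplets: regular windows.** For `h = 2` and for `h = 4`, for some `r` and positive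
`c₁, c₂, K, κ` and all large `x` at least `κ x` of the integers `n` in `[1, x]` are regular. -/
theorem result (h : ℕ) (hh : h = 2 ∨ h = 4) :
    ∃ (r : ℕ) (c₁ c₂ K κ : ℝ), 0 < c₁ ∧ 0 < c₂ ∧ 0 < K ∧ 0 < κ ∧
    ∀ᶠ x : ℕ in atTop,
      κ * x ≤ (((Finset.Icc 1 x).filter (fun n => Regular h r c₁ c₂ K n)).card : ℝ) := by
  have H := main_lin (k := 2) (fun _ => 1) (fun i => ((if i = 0 then h else 6 : ℕ) : ℤ))
    (fun _ => by norm_num)
    (fun _ => by rw [Nat.cast_one]; exact isCoprime_one_left)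
    (fun i j _ hij => by
      have h6 : h ≠ 6 := by rcases hh with rfl | rfl <;> norm_num
      fin_cases i <;> fin_cases j <;> simp_all <;> omega)
    (fun i hi => by
      obtain ⟨-, hi⟩ := hi
      rcases hh with rfl | rfl <;> fin_cases i <;> simp at hi)
    (by
      intro p hp
      obtain ⟨m, h1, h2, h3⟩ := adm h hh p hp
      refine ⟨m, h1, fun i hi => ?_⟩
      have e : ((1 : ℕ) : ℤ) * (m : ℤ) + ((if i = 0 then h else 6 : ℕ) : ℤ) =
          ((m + (if i = 0 then h else 6) : ℕ) : ℤ) := by push_cast; ring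
      rw [e, Int.natCast_dvd_natCast] at hi
      by_cases h0 : i = 0
      · rw [if_pos h0] at hi
        exact h2 hi
      · rw [if_neg h0] at hi
        exact h3 hi)
  rw [reg_eq] at H
  exact H

end Pool.Agent.Results.MP_dddec0_nt.RegularWindows
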